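import Mathlib

set_option autoImplicit false

open IsDedekindDomain NumberField Polynomial WithZero

namespace Pool.Agent.H502.SD

variable {K : Type*} [Field K] [NumberField K]

/-- The prime `c v`. -/
noncomputable def conjPrime (c : K ≃ₐ[ℚ] K) (v : HeightOneSpectrum (𝓞 K)) :
    HeightOneSpectrum (𝓞 K) where
  asIdeal := v.asIdeal.comap (RingOfIntegers.mapRingEquiv (c : K ≃+* K))
  isPrime := Ideal.comap_isPrime _ _
  ne_bot := by
    intro h
    apply v.ne_bot
    have h1 : v.asIdeal = Ideal.map (RingOfIntegers.mapRingEquiv (c : K ≃+* K))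
        (v.asIdeal.comap (RingOfIntegers.mapRingEquiv (c : K ≃+* K))) :=
      (Ideal.map_comap_of_surjective _ (RingEquiv.surjective _) _).symm
    rw [h1, h, Ideal.map_bot]

lemma mem_conjPrime_pow (c : K ≃ₐ[ℚ] K) (v : HeightOneSpectrum (𝓞 K)) (r : 𝓞 K) (n : ℕ) :
    r ∈ (conjPrime c v).asIdeal ^ n ↔
      RingOfIntegers.mapRingEquiv (c : K ≃+* K) r ∈ v.asIdeal ^ n := by
  set e := RingOfIntegers.mapRingEquiv (c : K ≃+* K) with he
  have h1 : (conjPrime c v).asIdeal ^ n = (v.asIdeal ^ n).comap e := by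
    have h2 : ∀ I : Ideal (𝓞 K), I.comap e = I.map e.symm := fun I => (Ideal.map_symm e).symm
    show (v.asIdeal.comap e) ^ n = _
    rw [h2, h2, Ideal.map_pow]
  rw [h1, Ideal.mem_comap]

lemma intValuation_conj (c : K ≃ₐ[ℚ] K) (v : HeightOneSpectrum (𝓞 K)) (r : 𝓞 K) :
    v.intValuation (RingOfIntegers.mapRingEquiv (c : K ≃+* K) r) =
      (conjPrime c v).intValuation r := by
  set e := RingOfIntegers.mapRingEquiv (c : K ≃+* K) with he
  by_cases hr : r = 0
  · simp [hr]
  have her : e r ≠ 0 := by simpa using hr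
  have key : ∀ n : ℕ, v.intValuation (e r) ≤ exp (-(n : ℤ)) ↔
      (conjPrime c v).intValuation r ≤ exp (-(n : ℤ)) := by
    intro n
    rw [HeightOneSpectrum.intValuation_le_pow_iff_mem,
      HeightOneSpectrum.intValuation_le_pow_iff_mem, mem_conjPrime_pow]
  have h1 := v.intValuation_if_neg her
  have h2 := (conjPrime c v).intValuation_if_neg hr
  refine le_antisymm ?_ ?_
  · rw [h2]
    refine (key _).2 ?_
    rw [h2]
  · rw [h1]
    refine (key _).1 ?_
    rw [h1]

lemma valuation_conj (c : K ≃ₐ[ℚ] K) (v : HeightOneSpectrum (𝓞 K)) (x : K) :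
    v.valuation K (c x) = (conjPrime c v).valuation K x := by
  obtain ⟨a, b, hb, rfl⟩ := IsFractionRing.div_surjective (A := 𝓞 K) x
  have h : ∀ r : 𝓞 K, v.valuation K (c (algebraMap (𝓞 K) K r)) =
      (conjPrime c v).valuation K (algebraMap (𝓞 K) K r) := by
    intro r
    have h1 : c (algebraMap (𝓞 K) K r) =
        algebraMap (𝓞 K) K (RingOfIntegers.mapRingEquiv (c : K ≃+* K) r) := rfl
    rw [h1, HeightOneSpectrum.valuation_of_algebraMap, HeightOneSpectrum.valuation_of_algebraMap,
      intValuation_conj]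
  rw [map_div₀, map_div₀, map_div₀, h, h]

end Pool.Agent.H502.SD
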