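import Mathlib

set_option autoImplicit false

open NumberField Module Matrix

namespace Pool.Agent.H502.SD

variable {K : Type*} [Field K] [NumberField K]

/-- A quadratic field has a nontrivial automorphism of order two, and what it fixes is rational. -/
lemma exists_conj (hK : finrank ℚ K = 2) :
    ∃ c : K ≃ₐ[ℚ] K, c ≠ 1 ∧ (∀ x, c (c x) = x) ∧
      (∀ x, c x = x → ∃ r : ℚ, algebraMap ℚ K r = x) ∧
      (∀ x, algebraMap ℚ K (Algebra.trace ℚ K x) = x + c x) := by
  have : Algebra.IsQuadraticExtension ℚ K := ⟨hK⟩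
  have : IsGalois ℚ K := inferInstance
  have hcard : Nat.card (K ≃ₐ[ℚ] K) = 2 := by
    rw [IsGalois.card_aut_eq_finrank, hK]
  classical
  letI : Fintype (K ≃ₐ[ℚ] K) := Fintype.ofFinite _
  have hF : Fintype.card (K ≃ₐ[ℚ] K) = 2 := by rw [← Nat.card_eq_fintype_card]; exact hcard
  obtain ⟨c, hc⟩ : ∃ c : K ≃ₐ[ℚ] K, c ≠ 1 := by
    by_contra h
    push Not at h
    have : Fintype.card (K ≃ₐ[ℚ] K) ≤ 1 := Fintype.card_le_one_iff.2 (fun a b => by rw [h a, h b])
    omega
  have hall : ∀ σ : K ≃ₐ[ℚ] K, σ = 1 ∨ σ = c := by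
    intro σ
    by_contra h
    push Not at h
    have h3 : ({1, c, σ} : Finset (K ≃ₐ[ℚ] K)).card = 3 := by
      rw [Finset.card_insert_of_notMem, Finset.card_insert_of_notMem, Finset.card_singleton]
      · simpa using h.2.symm
      · simp only [Finset.mem_insert, Finset.mem_singleton, not_or]
        exact ⟨hc.symm, h.1.symm⟩
    have h4 := Finset.card_le_univ ({1, c, σ} : Finset (K ≃ₐ[ℚ] K))
    omega
  refine ⟨c, hc, ?_, ?_, ?_⟩
  · intro x
    have h1 : c * c = 1 := by
      rcases hall (c * c) with h | h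
      · exact h
      · exact absurd (mul_eq_left.1 h) hc
    have h2 := congrArg (fun σ : K ≃ₐ[ℚ] K => σ x) h1
    simpa using h2
  · intro x hx
    have h1 : x ∈ Set.range (algebraMap ℚ K) := by
      rw [IsGalois.mem_range_algebraMap_iff_fixed]
      intro σ
      rcases hall σ with h | h
      · rw [h]; rfl
      · rw [h]; exact hx
    exact h1
  · intro x
    rw [trace_eq_sum_automorphisms]
    have h1 : ∀ s : Finset (K ≃ₐ[ℚ] K), (∀ σ, σ ∈ s) → ∑ σ ∈ s, σ x = x + c x := by
      intro s hs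
      have h2 : s = {1, c} := by
        ext σ
        simp [hall σ, hs σ]
      rw [h2, Finset.sum_pair hc.symm]
      rfl
    exact h1 _ (fun σ => by simp)

/-- The discriminant of the pair `(1, a)`. -/
lemma sub_sq_eq (hK : finrank ℚ K = 2) (c : K ≃ₐ[ℚ] K)
    (htr : ∀ x, algebraMap ℚ K (Algebra.trace ℚ K x) = x + c x) (a : 𝓞 K) :
    ∃ m : ℤ, ((a : K) - c (a : K)) ^ 2 = (m : K) ^ 2 * (discr K : K) := by
  classical
  have hfr : finrank ℤ (𝓞 K) = 2 := by rw [RingOfIntegers.rank, hK]
  let b : Basis (Fin 2) ℤ (𝓞 K) := (RingOfIntegers.basis K).reindex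
    (Fintype.equivOfCardEq (by rw [← finrank_eq_card_basis (RingOfIntegers.basis K), hfr]; simp))
  let f : Fin 2 → 𝓞 K := ![1, a]
  refine ⟨(b.toMatrix f).det, ?_⟩
  have h1 : Algebra.discr ℤ f = (b.toMatrix f).det ^ 2 * discr K := by
    rw [← discr_eq_discr K b, ← Algebra.discr_of_matrix_vecMul, Basis.toMatrix_map_vecMul]
  have htrZ : ∀ x : 𝓞 K, ((Algebra.trace ℤ (𝓞 K) x : ℤ) : K) = (x : K) + c (x : K) := by
    intro x
    rw [← htr, ← Algebra.coe_trace_int]
    simp
  have h2 : ((Algebra.discr ℤ f : ℤ) : K) = ((a : K) - c (a : K)) ^ 2 := by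
    rw [Algebra.discr_def, Matrix.det_fin_two]
    simp only [Algebra.traceMatrix_apply, Algebra.traceForm_apply, f]
    push_cast
    rw [htrZ, htrZ, htrZ, htrZ]
    simp
    ring
  rw [← h2, h1]
  push_cast
  ring

/-- Small algebraic integers with an integral norm square in an imaginary quadratic field are
fixed by conjugation. -/
lemma conj_eq_of_small (hK : finrank ℚ K = 2) [IsTotallyComplex K] (c : K ≃ₐ[ℚ] K)
    (htr : ∀ x, algebraMap ℚ K (Algebra.trace ℚ K x) = x + c x) (a : 𝓞 K) (n : ℕ)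
    (hn : (a : K) * c (a : K) = (n : K)) (hsmall : 4 * n < (discr K).natAbs) :
    c (a : K) = (a : K) := by
  by_contra hne
  obtain ⟨m, hm⟩ := sub_sq_eq hK c htr a
  have hm0 : m ≠ 0 := by
    intro h
    apply hne
    rw [h] at hm
    have : (a : K) - c (a : K) = 0 := by
      apply pow_eq_zero_iff (two_ne_zero) |>.1
      rw [hm]; simp
    exact (sub_eq_zero.1 this).symm
  have hD : discr K < 0 := by
    have h1 := sign_discr K
    have h2 : InfinitePlace.nrComplexPlaces K = 1 := by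
      have h3 := IsTotallyComplex.finrank K
      omega
    rw [h2] at h1
    have h4 : (discr K).sign = -1 := by simpa using h1
    exact Int.sign_eq_neg_one_iff_neg.1 h4
  have htrZ : ((Algebra.trace ℤ (𝓞 K) a : ℤ) : K) = (a : K) + c (a : K) := by
    rw [← htr, ← Algebra.coe_trace_int]
    simp
  set s := Algebra.trace ℤ (𝓞 K) a with hs
  have h5 : ((s ^ 2 - 4 * n : ℤ) : K) = ((m ^ 2 * discr K : ℤ) : K) := by
    push_cast
    rw [← hm, htrZ, ← hn]
    ring
  have h6 : s ^ 2 - 4 * n = m ^ 2 * discr K := by exact_mod_cast h5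
  have h7 : (1 : ℤ) ≤ m ^ 2 := by
    have : 0 < m ^ 2 := by positivity
    omega
  have h8 : (discr K).natAbs = - discr K := by omega
  have h9 : (4 * n : ℤ) < - discr K := by
    rw [← h8]; exact_mod_cast hsmall
  nlinarith [sq_nonneg s]

end Pool.Agent.H502.SD
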