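import Mathlib

set_option autoImplicit false

open Polynomial WithZero

namespace Pool.Agent.H502.SD

variable {K : Type*} [Field K]

lemma val_aeval_le_one (ν : Valuation K ℤᵐ⁰) (hint : ∀ n : ℤ, ν (n : K) ≤ 1) (Q : ℤ[X]) (t : K)
    (ht : ν t ≤ 1) : ν (aeval t Q) ≤ 1 := by
  rw [aeval_eq_sum_range]
  refine Valuation.map_sum_le _ (fun i _ => ?_)
  rw [zsmul_eq_mul, map_mul, map_pow]
  exact mul_le_one' (hint _) (pow_le_one' ht _)

lemma val_aeval_monic (ν : Valuation K ℤᵐ⁰) (hint : ∀ n : ℤ, ν (n : K) ≤ 1) (P : ℤ[X])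
    (hP : P.Monic) (t : K) (ht : 1 < ν t) : ν (aeval t P) = ν t ^ P.natDegree := by
  rw [aeval_eq_sum_range, Finset.sum_range_succ]
  have h1 : ν (P.coeff P.natDegree • t ^ P.natDegree) = ν t ^ P.natDegree := by
    rw [hP.coeff_natDegree, one_smul, map_pow]
  rw [← h1]
  apply Valuation.map_add_eq_of_lt_right
  rw [h1]
  have h0 : ν t ^ P.natDegree ≠ 0 := by
    apply pow_ne_zero
    intro h
    rw [h] at ht
    exact absurd ht (by simp)
  refine Valuation.map_sum_lt _ h0 (fun i hi => ?_)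
  rw [zsmul_eq_mul, map_mul, map_pow]
  calc ν ((P.coeff i : ℤ) : K) * ν t ^ i ≤ 1 * ν t ^ i := by gcongr; exact hint _
    _ = ν t ^ i := one_mul _
    _ < ν t ^ P.natDegree := pow_lt_pow_right₀ ht (Finset.mem_range.1 hi)

lemma val_t_le (ν : Valuation K ℤᵐ⁰) (hint : ∀ n : ℤ, ν (n : K) ≤ 1) (P : ℤ[X])
    (hP : P.Monic) (hdeg : 2 ≤ P.natDegree) (t j : K) (h : j * t = aeval t P) :
    ν t ≤ max 1 (ν j) := by
  by_cases ht : ν t ≤ 1
  · exact le_max_of_le_left ht
  push Not at ht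
  apply le_max_of_le_right
  have h1 := val_aeval_monic ν hint P hP t ht
  rw [← h, map_mul] at h1
  have ht0 : ν t ≠ 0 := by
    intro h
    rw [h] at ht
    exact absurd ht (by simp)
  have h2 : ν j = ν t ^ (P.natDegree - 1) := by
    apply mul_right_cancel₀ ht0
    rw [h1, ← pow_succ]
    congr 1
    omega
  rw [h2]
  calc ν t = ν t ^ 1 := (pow_one _).symm
    _ ≤ ν t ^ (P.natDegree - 1) := pow_le_pow_right₀ ht.le (by omega)

lemma val_coeff_le (ν : Valuation K ℤᵐ⁰) (hint : ∀ n : ℤ, ν (n : K) ≤ 1) (P : ℤ[X])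
    (t j : K) (h : j * t = aeval t P) :
    ν ((P.coeff 0 : ℤ) : K) ≤ ν t * max 1 (ν j) := by
  by_cases ht : ν t ≤ 1
  · have h1 : ((P.coeff 0 : ℤ) : K) = j * t - t * aeval t (divX P) := by
      have h2 := congrArg (aeval t) (divX_mul_X_add P)
      rw [map_add, map_mul, aeval_X, aeval_C] at h2
      rw [h, ← h2]
      simp
      ring
    rw [h1]
    refine (Valuation.map_sub _ _ _).trans (max_le ?_ ?_)
    · rw [map_mul, mul_comm]
      exact mul_le_mul_right (le_max_right _ _) _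
    · rw [map_mul]
      refine mul_le_mul_right ((val_aeval_le_one ν hint _ _ ht).trans (le_max_left _ _)) _
  · push Not at ht
    calc ν ((P.coeff 0 : ℤ) : K) ≤ 1 := hint _
      _ ≤ ν t * max 1 (ν j) := one_le_mul ht.le (le_max_left _ _)

end Pool.Agent.H502.SD
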