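import Pool.Agent.H502.T1
import Pool.Agent.H502.T2
import Pool.Agent.H502.T3

set_option autoImplicit false

open IsDedekindDomain NumberField Polynomial WithZero

namespace Pool.Agent.H502.SD

variable {K : Type*} [Field K] [NumberField K]

/-- A prime `v` of `K` is *shared* if another prime of `K` lies above the same rational prime; for
quadratic `K` this says that the residue characteristic of `v` splits. -/
def SplitPrime (v : HeightOneSpectrum (𝓞 K)) : Prop :=
  ∃ w : HeightOneSpectrum (𝓞 K), w ≠ v ∧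
    ∃ q : ℕ, q.Prime ∧ (q : 𝓞 K) ∈ v.asIdeal ∧ (q : 𝓞 K) ∈ w.asIdeal

/-- The order of the pole of `x` at `v` (zero if `x` is `v`-integral). -/
noncomputable def poleOrder (v : HeightOneSpectrum (𝓞 K)) (x : K) : ℕ :=
  (WithZero.log (v.valuation K x)).toNat

/-- The norm of the part of the denominator of `x` supported at the split primes. -/
noncomputable def splitDen (x : K) : ℕ :=
  ∏ᶠ (v : HeightOneSpectrum (𝓞 K)) (_ : SplitPrime v), Ideal.absNorm v.asIdeal ^ poleOrder v x

lemma poleOrder_eq_zero {v : HeightOneSpectrum (𝓞 K)} {x : K} (h : v.valuation K x ≤ 1) :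
    poleOrder v x = 0 := by
  unfold poleOrder
  rw [Int.toNat_eq_zero]
  by_cases hx : v.valuation K x = 0
  · rw [hx]; simp
  · rw [log_le_iff_le_exp hx]
    simpa using h

lemma le_exp_poleOrder (v : HeightOneSpectrum (𝓞 K)) (x : K) :
    max 1 (v.valuation K x) ≤ exp ((poleOrder v x : ℕ) : ℤ) := by
  refine max_le ?_ ?_
  · rw [← exp_zero, exp_le_exp]
    exact Int.natCast_nonneg _
  · apply le_exp_of_log_le
    exact Int.self_le_toNat _

lemma natCast_int_val (v : HeightOneSpectrum (𝓞 K)) (n : ℤ) : v.valuation K (n : K) ≤ 1 := by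
  have h := v.valuation_le_one (K := K) (n : 𝓞 K)
  simpa using h

lemma natCast_val (v : HeightOneSpectrum (𝓞 K)) (n : ℕ) : v.valuation K (n : K) ≤ 1 := by
  have h := natCast_int_val v (n : ℤ)
  simpa using h

lemma val_nat_le_exp {v : HeightOneSpectrum (𝓞 K)} {n : ℕ} (h : (n : 𝓞 K) ∈ v.asIdeal) :
    v.valuation K (n : K) ≤ exp (-1 : ℤ) := by
  have h1 : v.valuation K (algebraMap (𝓞 K) K (n : 𝓞 K)) ≤ exp (-1 : ℤ) := by
    rw [HeightOneSpectrum.valuation_of_algebraMap]
    have h2 := (v.intValuation_le_pow_iff_mem (n : 𝓞 K) 1).2 (by simpa using h)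
    simpa using h2
  simpa using h1

lemma val_eq_one_of_notMem {v : HeightOneSpectrum (𝓞 K)} {n : ℕ} (h : (n : 𝓞 K) ∉ v.asIdeal) :
    v.valuation K (n : K) = 1 := by
  have h1 := (HeightOneSpectrum.valuation_eq_one_iff_notMem (K := K) (v := v) (r := (n : 𝓞 K))).2 h
  simpa using h1

/-- The rational prime below `v`. -/
lemma exists_prime_mem (v : HeightOneSpectrum (𝓞 K)) :
    ∃ q : ℕ, q.Prime ∧ (q : 𝓞 K) ∈ v.asIdeal := by
  have h0 : Ideal.absNorm v.asIdeal ≠ 0 := by
    rw [Ne, Ideal.absNorm_eq_zero_iff]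
    exact v.ne_bot
  have h1 : Ideal.absNorm v.asIdeal ≠ 1 := by
    rw [Ne, Ideal.absNorm_eq_one_iff]
    exact v.isPrime.ne_top
  have h2 : ((Ideal.absNorm v.asIdeal : ℕ) : 𝓞 K) ∈ v.asIdeal := v.asIdeal.absNorm_mem
  generalize Ideal.absNorm v.asIdeal = N at h0 h1 h2
  induction N using Nat.recOnMul with
  | zero => exact absurd rfl h0
  | one => exact absurd rfl h1
  | prime p hp => exact ⟨p, hp, h2⟩
  | mul a b iha ihb =>
    push_cast at h2
    have ha0 : a ≠ 0 := fun h => h0 (by rw [h, zero_mul])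
    have hb0 : b ≠ 0 := fun h => h0 (by rw [h, mul_zero])
    rcases v.isPrime.mem_or_mem h2 with h | h
    · by_cases ha1 : a = 1
      · rw [ha1, Nat.cast_one] at h
        exact absurd ((Ideal.eq_top_iff_one _).2 h) v.isPrime.ne_top
      · exact iha ha0 ha1 h
    · by_cases hb1 : b = 1
      · rw [hb1, Nat.cast_one] at h
        exact absurd ((Ideal.eq_top_iff_one _).2 h) v.isPrime.ne_top
      · exact ihb hb0 hb1 h

lemma natCast_mem_conjPrime (c : K ≃ₐ[ℚ] K) (v : HeightOneSpectrum (𝓞 K)) (n : ℕ) :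
    (n : 𝓞 K) ∈ (conjPrime c v).asIdeal ↔ (n : 𝓞 K) ∈ v.asIdeal := by
  show (n : 𝓞 K) ∈ v.asIdeal.comap _ ↔ _
  rw [Ideal.mem_comap, map_natCast]

lemma splitPrime_of_conj_ne (c : K ≃ₐ[ℚ] K) {v : HeightOneSpectrum (𝓞 K)}
    (h : conjPrime c v ≠ v) : SplitPrime v ∧ SplitPrime (conjPrime c v) := by
  obtain ⟨q, hq, hqv⟩ := exists_prime_mem v
  have hqw := (natCast_mem_conjPrime c v q).2 hqv
  exact ⟨⟨_, h, q, hq, hqv, hqw⟩, ⟨_, h.symm, q, hq, hqw, hqv⟩⟩

lemma finite_poles (x : K) : {v : HeightOneSpectrum (𝓞 K) | poleOrder v x ≠ 0}.Finite := by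
  refine (HeightOneSpectrum.Support.finite (𝓞 K) x).subset ?_
  intro v hv
  by_contra h
  apply hv
  apply poleOrder_eq_zero
  by_contra h1
  exact h (by simpa [HeightOneSpectrum.Support] using h1)

lemma splitDen_eq (x : K) [DecidablePred (SplitPrime (K := K))]
    (T : Finset (HeightOneSpectrum (𝓞 K)))
    (hT : ∀ v, poleOrder v x ≠ 0 → v ∈ T) :
    splitDen x = ∏ v ∈ T, if SplitPrime v then Ideal.absNorm v.asIdeal ^ poleOrder v x else 1 := by
  unfold splitDen
  rw [← finprod_eq_prod_of_mulSupport_subset]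
  · congr 1
    funext v
    by_cases h : SplitPrime v
    · simp [h]
    · simp [h]
  · intro v hv
    rw [Function.mem_mulSupport] at hv
    apply hT
    intro h
    apply hv
    rw [h]
    simp

lemma splitDen_ne_zero (x : K) : splitDen x ≠ 0 := by
  classical
  rw [splitDen_eq x (finite_poles x).toFinset (fun v hv => by simpa using hv)]
  refine Finset.prod_ne_zero_iff.2 (fun v _ => ?_)
  split_ifs
  · apply pow_ne_zero
    rw [Ne, Ideal.absNorm_eq_zero_iff]
    exact v.ne_bot
  · exact one_ne_zero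

lemma dvd_splitDen (x : K) {v w : HeightOneSpectrum (𝓞 K)} (hv : SplitPrime v)
    (hw : SplitPrime w) (hne : w ≠ v) :
    Ideal.absNorm v.asIdeal ^ poleOrder v x * Ideal.absNorm w.asIdeal ^ poleOrder w x ∣
      splitDen x := by
  classical
  rw [splitDen_eq x ((finite_poles x).toFinset ∪ {v, w})
    (fun v hv => Finset.mem_union_left _ (by simpa using hv))]
  have h1 : Ideal.absNorm v.asIdeal ^ poleOrder v x * Ideal.absNorm w.asIdeal ^ poleOrder w x =
      ∏ u ∈ ({v, w} : Finset (HeightOneSpectrum (𝓞 K))),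
        if SplitPrime u then Ideal.absNorm u.asIdeal ^ poleOrder u x else 1 := by
    rw [Finset.prod_pair hne.symm, if_pos hv, if_pos hw]
  rw [h1]
  exact Finset.prod_dvd_prod_of_subset _ _ _ Finset.subset_union_right

lemma val_mono_dvd (v : HeightOneSpectrum (𝓞 K)) {a b : ℕ} (h : a ∣ b) :
    v.valuation K (b : K) ≤ v.valuation K (a : K) := by
  obtain ⟨k, rfl⟩ := h
  push_cast
  rw [map_mul]
  calc v.valuation K (a : K) * v.valuation K (k : K) ≤ v.valuation K (a : K) * 1 := by
        gcongr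
        exact natCast_val v k
    _ = _ := mul_one _

/-- At a pair of conjugate split primes the split denominator absorbs both poles. -/
lemma val_splitDen_le (c : K ≃ₐ[ℚ] K) (x : K) {v : HeightOneSpectrum (𝓞 K)}
    (h : conjPrime c v ≠ v) :
    v.valuation K (splitDen x : K) *
      (exp ((poleOrder v x : ℕ) : ℤ) * exp ((poleOrder (conjPrime c v) x : ℕ) : ℤ)) ≤ 1 := by
  obtain ⟨hv, hw⟩ := splitPrime_of_conj_ne c h
  set w := conjPrime c v with hwdef
  have h1 := val_mono_dvd v (dvd_splitDen x hv hw h)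
  have h2 : ((Ideal.absNorm v.asIdeal : ℕ) : 𝓞 K) ∈ v.asIdeal := v.asIdeal.absNorm_mem
  have h3 : ((Ideal.absNorm w.asIdeal : ℕ) : 𝓞 K) ∈ v.asIdeal := by
    rw [← natCast_mem_conjPrime c v]
    exact w.asIdeal.absNorm_mem
  have h4 := val_nat_le_exp h2
  have h5 := val_nat_le_exp h3
  have h6 : v.valuation K (splitDen x : K) ≤
      exp (-1 : ℤ) ^ poleOrder v x * exp (-1 : ℤ) ^ poleOrder w x := by
    refine h1.trans ?_
    push_cast
    rw [map_mul, map_pow, map_pow]
    gcongr
  calc v.valuation K (splitDen x : K) *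
      (exp ((poleOrder v x : ℕ) : ℤ) * exp ((poleOrder w x : ℕ) : ℤ)) ≤
      (exp (-1 : ℤ) ^ poleOrder v x * exp (-1 : ℤ) ^ poleOrder w x) *
      (exp ((poleOrder v x : ℕ) : ℤ) * exp ((poleOrder w x : ℕ) : ℤ)) := by gcongr
    _ = 1 := by
      rw [← exp_nsmul, ← exp_nsmul, ← exp_add, ← exp_add, ← exp_add, ← exp_zero]
      congr 1
      simp
      ring

end Pool.Agent.H502.SD
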