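import Pool.Agent.H502.T4

set_option autoImplicit false

open IsDedekindDomain NumberField Polynomial WithZero

namespace Pool.Agent.H502.SD

variable {K : Type*} [Field K] [NumberField K]

/-- The level factor: `a` if a split prime divides `a`, and `1` otherwise. -/
noncomputable def levelFactor (K : Type*) [Field K] [NumberField K] (a : ℕ) : ℕ :=
  letI := Classical.propDecidable
  if ∃ v : HeightOneSpectrum (𝓞 K), SplitPrime v ∧ (a : 𝓞 K) ∈ v.asIdeal then a else 1

lemma levelFactor_ne_zero {a : ℕ} (ha : a ≠ 0) : levelFactor K a ≠ 0 := by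
  unfold levelFactor
  split_ifs
  · exact ha
  · exact one_ne_zero

lemma levelFactor_val {a : ℕ} {v : HeightOneSpectrum (𝓞 K)} (hv : SplitPrime v) :
    v.valuation K (levelFactor K a : K) ≤ v.valuation K (a : K) := by
  unfold levelFactor
  split_ifs with h
  · exact le_rfl
  · have h1 : (a : 𝓞 K) ∉ v.asIdeal := fun h2 => h ⟨v, hv, h2⟩
    rw [val_eq_one_of_notMem h1]
    simp

/-- The key integrality statement. -/
lemma val_alpha_le (c : K ≃ₐ[ℚ] K) (P : ℤ[X]) (hP : P.Monic) (hdeg : 2 ≤ P.natDegree) (a : ℕ)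
    (ha0 : a ≠ 0) (ha : P.coeff 0 = a) (t j : K) (ht : t ≠ 0) (h : j * t = aeval t P)
    (v : HeightOneSpectrum (𝓞 K)) :
    v.valuation K ((levelFactor K a * splitDen j : ℕ) * c t / t : K) ≤ 1 := by
  have ht0 : v.valuation K t ≠ 0 := (Valuation.ne_zero_iff _).2 ht
  have hint : ∀ u : HeightOneSpectrum (𝓞 K), ∀ n : ℤ, u.valuation K (n : K) ≤ 1 :=
    fun u n => natCast_int_val u n
  rw [map_div₀, map_mul, valuation_conj]
  by_cases hw : conjPrime c v = v
  · rw [hw, mul_div_assoc, div_self ht0, mul_one]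
    exact natCast_val _ _
  · obtain ⟨hv1, -⟩ := splitPrime_of_conj_ne c hw
    have h1 := val_t_le ((conjPrime c v).valuation K) (hint _) P hP hdeg t j h
    have h2 := val_coeff_le (v.valuation K) (hint _) P t j h
    rw [ha] at h2
    have h1' := h1.trans (le_exp_poleOrder (conjPrime c v) j)
    have h3 : v.valuation K (a : K) ≤
        v.valuation K t * exp ((poleOrder v j : ℕ) : ℤ) := by
      have h4 : v.valuation K (((a : ℤ)) : K) = v.valuation K (a : K) := by simp
      rw [← h4]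
      refine h2.trans ?_
      gcongr
      exact le_exp_poleOrder v j
    have h5 := levelFactor_val (a := a) hv1
    have h6 := val_splitDen_le c j hw
    rw [div_le_iff₀ (by rw [zero_lt_iff]; exact ht0), one_mul]
    push_cast
    rw [map_mul]
    set A := v.valuation K (levelFactor K a : K)
    set B := v.valuation K (splitDen j : K)
    set C := (conjPrime c v).valuation K t
    set D := v.valuation K t
    set e1 : ℤᵐ⁰ := exp ((poleOrder v j : ℕ) : ℤ)
    set e2 : ℤᵐ⁰ := exp ((poleOrder (conjPrime c v) j : ℕ) : ℤ)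
    calc A * B * C ≤ (D * e1) * B * e2 := by
          gcongr
          exact h5.trans h3
      _ = D * (B * (e1 * e2)) := by
          rw [mul_assoc, mul_assoc, mul_left_comm e1 B e2]
      _ ≤ D * 1 := by gcongr
      _ = D := mul_one _

/-- Up to sign, conjugation fixes the parameter. -/
theorem conj_t_eq (hK : Module.finrank ℚ K = 2) [IsTotallyComplex K] (c : K ≃ₐ[ℚ] K)
    (hcc : ∀ x, c (c x) = x)
    (htr : ∀ x, algebraMap ℚ K (Algebra.trace ℚ K x) = x + c x)
    (P : ℤ[X]) (hP : P.Monic) (hdeg : 2 ≤ P.natDegree) (a : ℕ)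
    (ha0 : a ≠ 0) (ha : P.coeff 0 = a) (t j : K) (ht : t ≠ 0) (h : j * t = aeval t P)
    (hsmall : 4 * (levelFactor K a * splitDen j) ^ 2 < (discr K).natAbs) :
    c t = t ∨ c t = -t := by
  set N := levelFactor K a * splitDen j with hN
  have hN0 : N ≠ 0 := mul_ne_zero (levelFactor_ne_zero ha0) (splitDen_ne_zero j)
  have hNK : (N : K) ≠ 0 := by exact_mod_cast hN0
  have hct : c t ≠ 0 := fun h => ht (by simpa using h)
  obtain ⟨α, hα⟩ := HeightOneSpectrum.mem_integers_of_valuation_le_one (R := 𝓞 K) (K := K)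
    ((N : K) * c t / t) (fun v => val_alpha_le c P hP hdeg a ha0 ha t j ht h v)
  have hα' : (α : K) = (N : K) * c t / t := hα
  have h1 : (α : K) * c (α : K) = ((N ^ 2 : ℕ) : K) := by
    rw [hα', map_div₀, map_mul, hcc, map_natCast]
    push_cast
    field_simp
  have h2 := conj_eq_of_small hK c htr α (N ^ 2) h1 hsmall
  rw [hα', map_div₀, map_mul, hcc, map_natCast, div_eq_div_iff hct ht] at h2
  have h3 : (c t - t) * (c t + t) = 0 := by
    apply mul_left_cancel₀ hNK
    rw [mul_zero]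
    linear_combination -h2
  rcases mul_eq_zero.1 h3 with h4 | h4
  · left; exact sub_eq_zero.1 h4
  · right; exact eq_neg_of_add_eq_zero_left h4

/-- A prime is ramified over `ℚ` (in a quadratic field) if its square is generated by a rational
prime. -/
def RamifiedPrime (v : HeightOneSpectrum (𝓞 K)) : Prop :=
  ∃ q : ℕ, q.Prime ∧ v.asIdeal ^ 2 = Ideal.span {(q : 𝓞 K)}

lemma absNorm_of_ramified (hK : Module.finrank ℚ K = 2) {v : HeightOneSpectrum (𝓞 K)} {q : ℕ}
    (h : v.asIdeal ^ 2 = Ideal.span {(q : 𝓞 K)}) : Ideal.absNorm v.asIdeal = q := by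
  have h1 := congrArg Ideal.absNorm h
  rw [map_pow, Ideal.absNorm_span_singleton] at h1
  have h2 : Algebra.norm ℤ ((q : ℕ) : 𝓞 K) = (q : ℤ) ^ 2 := by
    have h3 : ((q : ℕ) : 𝓞 K) = algebraMap ℤ (𝓞 K) (q : ℤ) := by simp
    rw [h3, Algebra.norm_algebraMap, RingOfIntegers.rank, hK]
  rw [h2, Int.natAbs_pow, Int.natAbs_natCast] at h1
  exact Nat.pow_left_injective (n := 2) (by norm_num) h1

lemma exists_int_sub_mem {v : HeightOneSpectrum (𝓞 K)} {q : ℕ} (hq : q.Prime)
    (h : Ideal.absNorm v.asIdeal = q) (x : 𝓞 K) : ∃ m : ℤ, x - (m : 𝓞 K) ∈ v.asIdeal := by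
  have h1 : Nat.card (𝓞 K ⧸ v.asIdeal) = q := by
    rw [← h]; rfl
  have : Fact q.Prime := ⟨hq⟩
  have hne : (1 : 𝓞 K ⧸ v.asIdeal) ≠ 0 := by
    have := v.isPrime
    exact one_ne_zero
  have h2 : (Ideal.Quotient.mk v.asIdeal x) ∈ AddSubgroup.zmultiples (1 : 𝓞 K ⧸ v.asIdeal) :=
    mem_zmultiples_of_prime_card h1 hne
  obtain ⟨m, hm⟩ := AddSubgroup.mem_zmultiples_iff.1 h2
  refine ⟨m, ?_⟩
  rw [← Ideal.Quotient.eq_zero_iff_mem, map_sub, ← hm, map_intCast]
  simp

lemma conj_sub_mem (hK : Module.finrank ℚ K = 2) (c : K ≃ₐ[ℚ] K)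
    {v : HeightOneSpectrum (𝓞 K)} (hv : RamifiedPrime v) (x : 𝓞 K) :
    RingOfIntegers.mapRingEquiv (c : K ≃+* K) x - x ∈ v.asIdeal := by
  obtain ⟨q, hq, h⟩ := hv
  obtain ⟨m, hm⟩ := exists_int_sub_mem hq (absNorm_of_ramified hK h) x
  set e := RingOfIntegers.mapRingEquiv (c : K ≃+* K)
  have h1 : e (x - m) ∈ v.asIdeal := by
    have h2 : (x - m) ^ 2 ∈ Ideal.span {(q : 𝓞 K)} := by
      rw [← h]
      exact Ideal.pow_mem_pow hm 2
    obtain ⟨y, hy⟩ := Ideal.mem_span_singleton'.1 h2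
    have h3 : e (x - m) ^ 2 ∈ v.asIdeal := by
      rw [← map_pow, ← hy, map_mul, map_natCast]
      apply Ideal.mul_mem_left
      have h4 : (q : 𝓞 K) ∈ v.asIdeal ^ 2 := by
        rw [h]; exact Ideal.mem_span_singleton_self _
      exact Ideal.pow_le_self two_ne_zero h4
    exact v.isPrime.mem_of_pow_mem 2 h3
  have h5 : e x - x = e (x - m) - (x - m) := by
    rw [map_sub, map_intCast]; ring
  rw [h5]
  exact v.asIdeal.sub_mem h1 hm

/-- At an odd ramified prime where `j` is integral, the minus sign is impossible. -/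
theorem conj_t_ne_neg (hK : Module.finrank ℚ K = 2) (c : K ≃ₐ[ℚ] K)
    (P : ℤ[X]) (hP : P.Monic) (hdeg : 2 ≤ P.natDegree) (a : ℕ)
    (ha : P.coeff 0 = a) (t j : K) (ht : t ≠ 0) (h : j * t = aeval t P)
    (r : HeightOneSpectrum (𝓞 K)) (hr : RamifiedPrime r) (hr2 : (2 : 𝓞 K) ∉ r.asIdeal)
    (hra : (a : 𝓞 K) ∉ r.asIdeal) (hj : r.valuation K j ≤ 1) : c t ≠ -t := by
  intro hct
  have hint : ∀ n : ℤ, r.valuation K (n : K) ≤ 1 := fun n => natCast_int_val r n
  have h1 := val_t_le (r.valuation K) hint P hP hdeg t j h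
  rw [max_eq_left hj] at h1
  have h2 := val_coeff_le (r.valuation K) hint P t j h
  rw [max_eq_left hj, mul_one, ha] at h2
  have h3 : r.valuation K ((a : ℤ) : K) = 1 := by
    have h4 := val_eq_one_of_notMem hra
    simpa using h4
  rw [h3] at h2
  have h5 : r.valuation K t = 1 := le_antisymm h1 h2
  obtain ⟨n, d, hnd⟩ := HeightOneSpectrum.exists_primeCompl_mul_eq_of_integer r t h1
  have hd : (d : 𝓞 K) ∉ r.asIdeal := d.2
  have hn : n ∉ r.asIdeal := by
    rw [← HeightOneSpectrum.valuation_eq_one_iff_notMem (K := K), ← hnd, map_mul, h5, one_mul,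
      HeightOneSpectrum.valuation_eq_one_iff_notMem]
    exact hd
  set e := RingOfIntegers.mapRingEquiv (c : K ≃+* K) with he
  have h6 : e n * (d : 𝓞 K) + n * e (d : 𝓞 K) = 0 := by
    apply RingOfIntegers.ext
    have h7 : ((e n : 𝓞 K) : K) = c ((n : 𝓞 K) : K) := rfl
    have h8 : ((e (d : 𝓞 K) : 𝓞 K) : K) = c (((d : 𝓞 K)) : K) := rfl
    have h9 : t * ((d : 𝓞 K) : K) = ((n : 𝓞 K) : K) := hnd
    show ((e n : 𝓞 K) : K) * (((d : 𝓞 K)) : K) + ((n : 𝓞 K) : K) * ((e (d : 𝓞 K) : 𝓞 K) : K) = 0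
    rw [h7, h8, ← h9, map_mul, hct]
    ring
  have h10 : e n - n ∈ r.asIdeal := conj_sub_mem hK c hr n
  have h11 : e (d : 𝓞 K) - (d : 𝓞 K) ∈ r.asIdeal := conj_sub_mem hK c hr d
  have h12 : (2 : 𝓞 K) * (n * (d : 𝓞 K)) ∈ r.asIdeal := by
    have h13 : (2 : 𝓞 K) * (n * (d : 𝓞 K)) = - ((e n - n) * (d : 𝓞 K)) -
        n * (e (d : 𝓞 K) - (d : 𝓞 K)) := by
      linear_combination h6
    rw [h13]
    apply Ideal.sub_mem
    · exact Ideal.neg_mem_iff _ |>.2 (Ideal.mul_mem_right _ _ h10)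
    · exact Ideal.mul_mem_left _ _ h11
  rcases r.isPrime.mem_or_mem h12 with h14 | h14
  · exact hr2 h14
  · rcases r.isPrime.mem_or_mem h14 with h15 | h15
    · exact hn h15
    · exact hd h15

end Pool.Agent.H502.SD
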